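import Pool.Agent.Lib_helper99.Sandpile.Model

set_option autoImplicit false

open MeasureTheory ProbabilityTheory Finset
open scoped ENNReal NNReal
open Pool.Agent.Lib_helper99.Sandpile

namespace Pool.Agent.Results.MP_fd85b0_pr.ThirdMomentStabilizes

/-- **Stabilization of the divisible sandpile at the third moment endpoint.**
Let `G` be an infinite, connected, locally finite graph of bounded degree, and let
`(σ v)_{v ∈ V}` be i.i.d. real random variables with extended mean `E[σ⁺] - E[σ⁻] < 1`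
(the value `-∞` is allowed) and `E[(σ⁺)³] < ∞`.  Then almost surely the configuration stabilizes
under parallel toppling, and moreover the expectations of the limiting odometer are bounded
uniformly over the vertices. -/
theorem result {V : Type*} (G : SimpleGraph V) [G.LocallyFinite] (hinf : Infinite V)
    (hconn : G.Connected) (hdeg : ∃ D : ℕ, ∀ v, G.degree v ≤ D)
    {Ω : Type*} [MeasurableSpace Ω] (P : Measure Ω) [IsProbabilityMeasure P]
    (σ : V → Ω → ℝ) (hm : ∀ v, Measurable (σ v)) (hind : iIndepFun σ P)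
    (hid : ∀ v w, IdentDistrib (σ v) (σ w) P P)
    (hmean : ∀ v, extMean P (σ v) < 1)
    (h3 : ∀ v, ∫⁻ ω, ENNReal.ofReal (max (σ v ω) 0 ^ 3) ∂P < ∞) :
    (∀ᵐ ω ∂P, Stabilizes G (fun v => σ v ω)) ∧
      ∃ C : ℝ≥0, ∀ v, ∫⁻ ω, odometerLimit G (fun y => σ y ω) v ∂P ≤ C := by
  classical
  obtain ⟨D, hD⟩ := hdeg
  have hpos := degree_pos_of_infinite hinf hconn
  obtain ⟨o⟩ : Nonempty V := hconn.nonempty
  -- the positive part is integrable
  have hA : ∫⁻ ω, ENNReal.ofReal (σ o ω) ∂P < ∞ := by
    have h1 : ∫⁻ ω, ENNReal.ofReal (σ o ω) ∂P ≤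
        ∫⁻ ω, (1 + ENNReal.ofReal (max (σ o ω) 0 ^ 3)) ∂P := by
      refine lintegral_mono fun ω => ?_
      have e1 : (1 : ℝ≥0∞) = ENNReal.ofReal 1 := by simp
      rw [e1, ← ENNReal.ofReal_add (by norm_num) (by positivity)]
      refine ENNReal.ofReal_le_ofReal ?_
      rcases le_total (σ o ω) 1 with h | h
      · have : 0 ≤ max (σ o ω) 0 ^ 3 := by positivity
        linarith
      · rw [max_eq_left (by linarith)]
        nlinarith [mul_nonneg (sub_nonneg.2 h) (sub_nonneg.2 h), sq_nonneg (σ o ω)]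
    refine h1.trans_lt ?_
    rw [lintegral_add_left (by fun_prop)]
    simpa using h3 o
  obtain ⟨K, hK⟩ := exists_trunc (hm o) hA (hmean o)
  -- the truncated field
  set f : ℝ → ℝ := fun r => max (r - 1) (-(K : ℝ)) with hf
  have hfm : Measurable f := by fun_prop
  set ζ : V → Ω → ℝ := fun y ω => f (σ y ω) with hζ
  have hζm : ∀ y, Measurable (ζ y) := fun y => hfm.comp (hm y)
  have hζi : iIndepFun ζ P := hind.comp (fun _ => f) fun _ => hfm
  set μ0 : Measure ℝ := P.map (ζ o) with hμ0
  have hprob : IsProbabilityMeasure μ0 := Measure.isProbabilityMeasure_map (hζm o).aemeasurable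
  have hmap : ∀ y, P.map (ζ y) = μ0 := fun y => ((hid y o).comp hfm).map_eq
  have hKζ : ∀ y ω, -(K : ℝ) ≤ ζ y ω := fun y ω => le_max_right _ _
  have hK0 : (0 : ℝ) ≤ K := Nat.cast_nonneg _
  have hζpos : ∀ ω, max (ζ o ω) 0 = max (σ o ω - 1) 0 := by
    intro ω
    simp only [hζ, hf]
    rw [max_assoc, max_eq_right (by linarith : -(K : ℝ) ≤ 0)]
  have hζng : ∀ ω, ng (ζ o ω) = max (min (1 - σ o ω) K) 0 := by
    intro ω
    simp only [hζ, hf, ng]
    rw [← min_neg_neg]
    congr 2
    · ring
    · ring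
  -- third moment
  have h3' : Integrable (fun r => max r 0 ^ 3) μ0 := by
    rw [hμ0, integrable_map_measure (by fun_prop) (hζm o).aemeasurable]
    have hσ3 : Integrable (fun ω => max (σ o ω) 0 ^ 3) P := by
      refine ⟨by have := hm o; fun_prop, ?_⟩
      rw [hasFiniteIntegral_iff_ofReal (ae_of_all _ fun ω => by positivity)]
      exact h3 o
    refine hσ3.mono' (by have := hζm o; fun_prop) (ae_of_all _ fun ω => ?_)
    simp only [Function.comp]
    rw [Real.norm_eq_abs, abs_of_nonneg (by positivity), hζpos]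
    exact pow_le_pow_left₀ (le_max_right _ _) (max_le_max_right 0 (by linarith)) 3
  have hK' : ∀ᵐ r ∂μ0, -(K : ℝ) ≤ r := by
    rw [hμ0, ae_map_iff (hζm o).aemeasurable measurableSet_Ici]
    exact ae_of_all _ (hKζ o)
  -- negative drift
  have hδ : ∫ r, max r 0 ∂μ0 < ∫ r, ng r ∂μ0 := by
    have i1 := integrable_pos hK' hK0 h3'
    have i2 := integrable_ng hK' hK0 h3'
    have e0 : ∀ r : ℝ, ENNReal.ofReal (max r 0) = ENNReal.ofReal r := fun r => by
      rcases le_total r 0 with h | h
      · rw [max_eq_right h, ENNReal.ofReal_of_nonpos h]; simp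
      · rw [max_eq_left h]
    have e1 : ENNReal.ofReal (∫ r, max r 0 ∂μ0) = ∫⁻ ω, ENNReal.ofReal (σ o ω - 1) ∂P := by
      rw [ofReal_integral_eq_lintegral_ofReal i1 (ae_of_all _ fun r => le_max_right _ _), hμ0,
        lintegral_map (by fun_prop) (hζm o)]
      refine lintegral_congr fun ω => ?_
      rw [hζpos, e0]
    have e2 : ENNReal.ofReal (∫ r, ng r ∂μ0) = ∫⁻ ω, ENNReal.ofReal (min (1 - σ o ω) K) ∂P := by
      rw [ofReal_integral_eq_lintegral_ofReal i2 (ae_of_all _ fun r => ng_nonneg r), hμ0,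
        lintegral_map (by have := measurable_ng; fun_prop) (hζm o)]
      refine lintegral_congr fun ω => ?_
      rw [hζng, e0]
    rw [← e1, ← e2] at hK
    exact (ENNReal.ofReal_lt_ofReal_iff_of_nonneg
      (integral_nonneg fun r => le_max_right _ _)).1 hK
  obtain ⟨C, hC⟩ := annealed_bound (P := P) hinf hconn hpos hD hζm hζi hmap hKζ hK0 h3' hδ
  -- the expectation of the limiting odometer
  have hbound : ∀ v, ∫⁻ ω, odometerLimit G (fun y => σ y ω) v ∂P ≤ ENNReal.ofReal C := by
    intro v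
    unfold odometerLimit
    rw [lintegral_iSup (fun n => (measurable_odometer hm n v).ennreal_ofReal)
      (fun a b hab ω => ENNReal.ofReal_le_ofReal (odometer_mono _ v hab))]
    refine iSup_le fun n => ?_
    have hnn : ∀ ω, 0 ≤ Ew G n v (mx (fun y => ζ y ω / G.degree y)) := fun ω =>
      Ew_nonneg n v _ fun l _ => mx_nonneg _ l
    calc ∫⁻ ω, ENNReal.ofReal (odometer G (fun y => σ y ω) n v) ∂P
        ≤ ∫⁻ ω, ENNReal.ofReal (Ew G n v (mx (fun y => ζ y ω / G.degree y))) ∂P := by
          refine lintegral_mono fun ω => ENNReal.ofReal_le_ofReal ?_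
          refine odometer_le hpos _ _ (fun y => ?_) n v
          exact div_le_div_of_nonneg_right (le_max_left _ _) (Nat.cast_nonneg _)
      _ = ENNReal.ofReal (∫ ω, Ew G n v (mx (fun y => ζ y ω / G.degree y)) ∂P) :=
          (ofReal_integral_eq_lintegral_ofReal (hC n v).1 (ae_of_all _ hnn)).symm
      _ ≤ ENNReal.ofReal C := ENNReal.ofReal_le_ofReal (hC n v).2
  refine ⟨?_, Real.toNNReal C, hbound⟩
  have hcount : Countable V := countable_of_connected G hconn
  unfold Stabilizes
  rw [ae_all_iff]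
  intro v
  refine ae_lt_top ?_ ((hbound v).trans_lt ENNReal.ofReal_lt_top).ne
  unfold odometerLimit
  exact Measurable.iSup fun n => (measurable_odometer hm n v).ennreal_ofReal

end Pool.Agent.Results.MP_fd85b0_pr.ThirdMomentStabilizes
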